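import Pool.Agent.X64.Ddn.Poly

/-!
# Two edge lengths for outerplanar graphs: the induction over intervals
-/

namespace Pool.Agent.X64.Ddn

open Polynomial

/-- No two pairs cross. -/
def NonCross (E : ℕ → ℕ → Prop) : Prop :=
  ∀ a b c d, a < b → b < c → c < d → E a c → E b d → False

/-- Allowed differences. -/
def Al (δ : ℤ[X]) : Prop :=
  ∃ k : ℕ, δ = X ^ k ∨ δ = -X ^ k ∨ δ = X ^ k * (X - 1) ∨ δ = -(X ^ k * (X - 1))

def Un (x : ℤ[X]) : Prop := ∃ k : ℕ, x = X ^ k ∨ x = -X ^ k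

theorem Un.mulX {x : ℤ[X]} (h : Un x) : Un (x * X) := by
  obtain ⟨k, rfl | rfl⟩ := h
  · exact ⟨k + 1, Or.inl (by ring)⟩
  · exact ⟨k + 1, Or.inr (by ring)⟩

theorem Un.neg {x : ℤ[X]} (h : Un x) : Un (-x) := by
  obtain ⟨k, rfl | rfl⟩ := h
  · exact ⟨k, Or.inr rfl⟩
  · exact ⟨k, Or.inl (by ring)⟩

theorem Un.ne {x : ℤ[X]} (h : Un x) : x ≠ 0 := by
  obtain ⟨k, rfl | rfl⟩ := h
  · exact pow_ne_zero _ X_ne_zero
  · exact neg_ne_zero.2 (pow_ne_zero _ X_ne_zero)

theorem Un.al {x : ℤ[X]} (h : Un x) : Al x := by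
  obtain ⟨k, rfl | rfl⟩ := h
  · exact ⟨k, Or.inl rfl⟩
  · exact ⟨k, Or.inr (Or.inl rfl)⟩

theorem Al.neg {x : ℤ[X]} (h : Al x) : Al (-x) := by
  obtain ⟨k, rfl | rfl | rfl | rfl⟩ := h
  · exact ⟨k, Or.inr (Or.inl rfl)⟩
  · exact ⟨k, Or.inl (by ring)⟩
  · exact ⟨k, Or.inr (Or.inr (Or.inr rfl))⟩
  · exact ⟨k, Or.inr (Or.inr (Or.inl (by ring)))⟩

theorem Un.al_base {x : ℤ[X]} (h : Un x) : Al (x * (X - 1)) := by
  obtain ⟨k, rfl | rfl⟩ := h
  · exact ⟨k, Or.inr (Or.inr (Or.inl rfl))⟩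
  · exact ⟨k, Or.inr (Or.inr (Or.inr (by ring)))⟩

def Good (E : ℕ → ℕ → Prop) (i j : ℕ) (a b : ℤ[X]) (R : ℤ[X] → Prop) : Prop :=
  ∃ f : ℕ → ℤ[X], f i = a ∧ f j = b ∧ (∀ v, i ≤ v → v ≤ j → R (f v)) ∧
    (∀ u v, i ≤ u → u ≤ j → i ≤ v → v ≤ j → f u = f v → u = v) ∧
    (∀ u v, i ≤ u → u < v → v ≤ j → E u v → Al (f v - f u))

theorem Good.base {E : ℕ → ℕ → Prop} {i : ℕ} {a b : ℤ[X]} {R : ℤ[X] → Prop} (ha : R a) (hb : R b)
    (hne : a ≠ b) (hab : Al (b - a)) : Good E i (i + 1) a b R := by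
  refine ⟨fun v => if v = i then a else b, by simp, by simp, ?_, ?_, ?_⟩
  · intro v _ _
    show R (if v = i then a else b)
    split_ifs
    exacts [ha, hb]
  · intro u v h1 h2 h3 h4 h
    simp only at h
    split_ifs at h with h5 h6 h6
    · omega
    · exact absurd h hne
    · exact absurd h.symm hne
    · omega
  · intro u v h1 h2 h3 _
    have e1 : u = i := by omega
    have e2 : ¬ v = i := by omega
    simp only [e1, e2, if_true, if_false]
    exact hab

theorem Good.glue {E : ℕ → ℕ → Prop} {i m j : ℕ} {a b c : ℤ[X]} {R R1 R2 : ℤ[X] → Prop}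
    (him : i < m) (hmj : m < j) (h1 : Good E i m a c R1) (h2 : Good E m j c b R2)
    (hint : ∀ P, R1 P → R2 P → P = c) (hR1 : ∀ P, R1 P → R P) (hR2 : ∀ P, R2 P → R P)
    (hab : Al (b - a))
    (hE : ∀ u v, i ≤ u → u < m → m < v → v ≤ j → E u v → u = i ∧ v = j) : Good E i j a b R := by
  obtain ⟨f, f1, f2, f3, f4, f5⟩ := h1
  obtain ⟨g, g1, g2, g3, g4, g5⟩ := h2
  have key : ∀ u v, i ≤ u → u ≤ m → m < v → v ≤ j → f u ≠ g v := by
    intro u v hu hum hv hvj h
    have e1 : f u = c := hint _ (f3 u hu hum) (h ▸ g3 v hv.le hvj)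
    have e2 : g v = g m := by rw [g1, ← h, e1]
    have := g4 v m hv.le hvj le_rfl hmj.le e2
    omega
  refine ⟨fun v => if v ≤ m then f v else g v, ?_, ?_, ?_, ?_, ?_⟩
  · simp only [him.le, if_true]; exact f1
  · simp only [not_le.2 hmj, if_false]; exact g2
  · intro v hv hvj
    show R (if v ≤ m then f v else g v)
    split_ifs with h
    · exact hR1 _ (f3 v hv h)
    · exact hR2 _ (g3 v (not_le.1 h).le hvj)
  · intro u v h1 h2 h3 h4 h
    simp only at h
    split_ifs at h with h5 h6 h6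
    · exact f4 u v h1 h5 h3 h6 h
    · exact absurd h (key u v h1 h5 (not_le.1 h6) h4)
    · exact absurd h.symm (key v u h3 h6 (not_le.1 h5) h2)
    · exact g4 u v (not_le.1 h5).le h2 (not_le.1 h6).le h4 h
  · intro u v h1 h2 h3 hEuv
    show Al ((if v ≤ m then f v else g v) - (if u ≤ m then f u else g u))
    by_cases hv : v ≤ m
    · rw [if_pos hv, if_pos (by omega)]
      exact f5 u v h1 h2 hv hEuv
    · by_cases hu : u < m
      · obtain ⟨e1, e2⟩ := hE u v h1 hu (not_le.1 hv) h3 hEuv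
        rw [if_neg hv, if_pos hu.le, e1, e2, f1, g2]
        exact hab
      · rw [if_neg hv]
        have e : (if u ≤ m then f u else g u) = g u := by
          split_ifs with h
          · have : u = m := by omega
            rw [this, f2, g1]
          · rfl
        rw [e]
        exact g5 u v (by omega) h2 h3 hEuv

theorem exists_mid {E : ℕ → ℕ → Prop} (hE : NonCross E) {i j : ℕ} (hij : i + 2 ≤ j) :
    ∃ m, i < m ∧ m < j ∧ ∀ u v, i ≤ u → u < m → m < v → v ≤ j → E u v → u = i ∧ v = j := by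
  classical
  by_cases hex : ∃ m, (i < m ∧ m < j) ∧ E i m
  · have hfin : Set.Finite {m | (i < m ∧ m < j) ∧ E i m} :=
      (Set.finite_Iio j).subset (fun m hm => hm.1.2)
    obtain ⟨m, hm⟩ := hfin.exists_maximal hex
    have hmax : ∀ m', ((i < m' ∧ m' < j) ∧ E i m') → m' ≤ m := by
      intro m' hm'
      by_contra hlt
      exact hlt (hm.le_of_ge hm' (by omega))
    refine ⟨m, hm.prop.1.1, hm.prop.1.2, ?_⟩
    intro u v h1 h2 h3 h4 hEuv
    rcases Nat.eq_or_lt_of_le h1 with h | h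
    · subst h
      refine ⟨rfl, ?_⟩
      by_contra hne
      have := hmax v ⟨⟨by omega, by omega⟩, hEuv⟩
      omega
    · exact (hE i u m v h h2 h3 hm.prop.2 hEuv).elim
  · refine ⟨i + 1, by omega, by omega, ?_⟩
    intro u v h1 h2 h3 h4 hEuv
    have : u = i := by omega
    subst this
    refine ⟨rfl, ?_⟩
    by_contra hne
    exact hex ⟨v, ⟨by omega, by omega⟩, hEuv⟩

/-- Both orientations. -/
def Both (E : ℕ → ℕ → Prop) (i j : ℕ) (a b : ℤ[X]) (R : ℤ[X] → Prop) : Prop :=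
  Good E i j a b R ∧ Good E i j b a R

theorem Both.symm {E : ℕ → ℕ → Prop} {i j : ℕ} {a b : ℤ[X]} {R : ℤ[X] → Prop}
    (h : Both E i j a b R) : Both E i j b a R := ⟨h.2, h.1⟩

theorem step {E : ℕ → ℕ → Prop} {i m j : ℕ} {a b c : ℤ[X]} {R R1 R2 : ℤ[X] → Prop}
    (him : i < m) (hmj : m < j)
    (hE : ∀ u v, i ≤ u → u < m → m < v → v ≤ j → E u v → u = i ∧ v = j)
    (hL1 : Both E i m a c R1) (hL2 : Both E m j a c R1)
    (hM1 : Both E i m b c R2) (hM2 : Both E m j b c R2)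
    (hint : ∀ P, R1 P → R2 P → P = c) (hR1 : ∀ P, R1 P → R P) (hR2 : ∀ P, R2 P → R P)
    (hab : Al (b - a)) : Both E i j a b R := by
  refine ⟨?_, ?_⟩
  · exact Good.glue him hmj hL1.1 hM2.2 hint hR1 hR2 hab hE
  · refine Good.glue him hmj hM1.1 hL2.2 (fun P h h' => hint P h' h) hR2 hR1 ?_ hE
    have := hab.neg
    rwa [neg_sub] at this

/-- the region `p + x * V` -/
def Rg (V : ℤ[X] → Prop) (p x : ℤ[X]) (q : ℤ[X]) : Prop := ∃ P, V P ∧ q = p + x * P

def All (E : ℕ → ℕ → Prop) (i j : ℕ) : Prop :=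
  ∀ p x : ℤ[X], Un x →
    Both E i j p (p + x) (Rg V0 p x) ∧ Both E i j p (p + x) (Rg V1 p x) ∧
    Both E i j (p + x) (p + x * X) (Rg B0 p x) ∧ Both E i j (p + x) (p + x * X) (Rg B1 p x)

theorem V0_zero : V0 0 := ⟨0, 0, Or.inl rfl, pos_zero, by ring⟩
theorem V0_one : V0 1 := ⟨1, 0, Or.inr rfl, pos_zero, by ring⟩
theorem V1_zero : V1 0 := Or.inl ⟨0, 0, 0, Or.inl rfl, Or.inl rfl, pos_zero, by ring⟩
theorem V1_one : V1 1 := Or.inl ⟨1, 0, 0, Or.inr rfl, Or.inl rfl, pos_zero, by ring⟩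
theorem B0_one : B0 1 := Or.inl ⟨0, 0, Or.inl rfl, pos_zero, by ring⟩
theorem B0_X : B0 X := Or.inr (by rw [sub_self]; exact V1_zero)
theorem B1_one : B1 1 := Or.inl ⟨0, 0, Or.inl rfl, pos_zero, by ring⟩
theorem B1_X : B1 X := Or.inr ⟨0, 0, Or.inl rfl, pos_zero, by ring⟩

theorem Rg.mem {V : ℤ[X] → Prop} {p x P : ℤ[X]} (h : V P) : Rg V p x (p + x * P) := ⟨P, h, rfl⟩

theorem X_sub_one_ne : (X : ℤ[X]) - 1 ≠ 0 := by
  have := X_sub_C_ne_zero (1 : ℤ)
  rwa [C_1] at this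

theorem all_base (E : ℕ → ℕ → Prop) (i : ℕ) : All E i (i + 1) := by
  intro p x hx
  have hne : p ≠ p + x := by
    intro h
    exact hx.ne (by linear_combination -h)
  have hne2 : p + x ≠ p + x * X := by
    intro h
    have h2 : x * (X - 1) = 0 := by linear_combination -h
    rcases mul_eq_zero.1 h2 with h3 | h3
    · exact hx.ne h3
    · exact X_sub_one_ne h3
  have a1 : Al (p + x - p) := by rw [add_sub_cancel_left]; exact hx.al
  have a2 : Al (p - (p + x)) := by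
    have := a1.neg
    rwa [neg_sub] at this
  have a3 : Al (p + x * X - (p + x)) := by
    have := hx.al_base
    rwa [show x * (X - 1) = p + x * X - (p + x) by ring] at this
  have a4 : Al (p + x - (p + x * X)) := by
    have := a3.neg
    rwa [neg_sub] at this
  have m0 : ∀ V : ℤ[X] → Prop, V 0 → Rg V p x p := fun V h => ⟨0, h, by ring⟩
  have m1 : ∀ V : ℤ[X] → Prop, V 1 → Rg V p x (p + x) := fun V h => ⟨1, h, by ring⟩
  have mX : ∀ V : ℤ[X] → Prop, V X → Rg V p x (p + x * X) := fun V h => ⟨X, h, rfl⟩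
  refine ⟨⟨?_, ?_⟩, ⟨?_, ?_⟩, ⟨?_, ?_⟩, ⟨?_, ?_⟩⟩
  · exact Good.base (m0 _ V0_zero) (m1 _ V0_one) hne a1
  · exact Good.base (m1 _ V0_one) (m0 _ V0_zero) hne.symm a2
  · exact Good.base (m0 _ V1_zero) (m1 _ V1_one) hne a1
  · exact Good.base (m1 _ V1_one) (m0 _ V1_zero) hne.symm a2
  · exact Good.base (m1 _ B0_one) (mX _ B0_X) hne2 a3
  · exact Good.base (mX _ B0_X) (m1 _ B0_one) hne2.symm a4
  · exact Good.base (m1 _ B1_one) (mX _ B1_X) hne2 a3
  · exact Good.base (mX _ B1_X) (m1 _ B1_one) hne2.symm a4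

theorem cancel {x P P' : ℤ[X]} {p : ℤ[X]} (hx : Un x) (h : p + x * P = p + x * P') : P = P' :=
  mul_left_cancel₀ hx.ne (add_left_cancel h)

theorem all_step {E : ℕ → ℕ → Prop} {i m j : ℕ} (him : i < m) (hmj : m < j)
    (hE : ∀ u v, i ≤ u → u < m → m < v → v ≤ j → E u v → u = i ∧ v = j)
    (h1 : All E i m) (h2 : All E m j) : All E i j := by
  intro p x hx
  have a1 : Al (p + x - p) := by rw [add_sub_cancel_left]; exact hx.al
  have a3 : Al (p + x * X - (p + x)) := by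
    have := hx.al_base
    rwa [show x * (X - 1) = p + x * X - (p + x) by ring] at this
  refine ⟨?_, ?_, ?_, ?_⟩
  · -- `V0`: apex `X`; children `X * V0` and `B0`
    have l1 := (h1 p (x * X) hx.mulX).1
    have l2 := (h2 p (x * X) hx.mulX).1
    have r1 := (h1 p x hx).2.2.1
    have r2 := (h2 p x hx).2.2.1
    refine step him hmj hE l1 l2 r1 r2 ?_ ?_ ?_ a1
    · rintro P ⟨Q, hQ, rfl⟩ ⟨Q', hQ', h⟩
      have h' : p + x * (X * Q) = p + x * Q' := by rw [← h]; ring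
      have h3 := cancel hx h'
      have := inter_V0 hQ (h3 ▸ hQ')
      rw [show p + x * X * Q = p + x * (X * Q) by ring, this]
    · rintro P ⟨Q, hQ, rfl⟩
      exact ⟨X * Q, xV0_V0 hQ, by ring⟩
    · rintro P ⟨Q, hQ, rfl⟩
      exact ⟨Q, B0_V0 hQ, rfl⟩
  · -- `V1`: apex `X`; children `X - X * V0` and `B1`
    have e1 : p + x * X + -(x * X) = p := by ring
    have l1 := (h1 (p + x * X) (-(x * X)) hx.mulX.neg).1.symm
    have l2 := (h2 (p + x * X) (-(x * X)) hx.mulX.neg).1.symm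
    rw [e1] at l1 l2
    have r1 := (h1 p x hx).2.2.2
    have r2 := (h2 p x hx).2.2.2
    refine step him hmj hE l1 l2 r1 r2 ?_ ?_ ?_ a1
    · rintro P ⟨Q, hQ, rfl⟩ ⟨Q', hQ', h⟩
      have h' : p + x * (X - X * Q) = p + x * Q' := by rw [← h]; ring
      have h3 := cancel hx h'
      have := inter_V1 hQ (h3 ▸ hQ')
      rw [show p + x * X + -(x * X) * Q = p + x * (X - X * Q) by ring, this]
    · rintro P ⟨Q, hQ, rfl⟩
      exact ⟨X - X * Q, xV0_V1 hQ, by ring⟩
    · rintro P ⟨Q, hQ, rfl⟩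
      exact ⟨Q, B1_V1 hQ, rfl⟩
  · -- `B0`: apex `1 + X`; children `1 + X * V0` and `X + V1`
    have e1 : p + x + x * X = p + x * (1 + X) := by ring
    have e2 : p + x * X + x = p + x * (1 + X) := by ring
    have l1 := (h1 (p + x) (x * X) hx.mulX).1
    have l2 := (h2 (p + x) (x * X) hx.mulX).1
    rw [e1] at l1 l2
    have r1 := (h1 (p + x * X) x hx).2.1
    have r2 := (h2 (p + x * X) x hx).2.1
    rw [e2] at r1 r2
    refine step him hmj hE l1 l2 r1 r2 ?_ ?_ ?_ a3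
    · rintro P ⟨Q, hQ, rfl⟩ ⟨Q', hQ', h⟩
      have h' : p + x * (1 + X * Q) = p + x * (X + Q') := by linear_combination h
      have := inter_B0 hQ hQ' (cancel hx h')
      rw [show p + x + x * X * Q = p + x * (1 + X * Q) by ring, this]
    · rintro P ⟨Q, hQ, rfl⟩
      exact ⟨1 + X * Q, oxV0_B0 hQ, by ring⟩
    · rintro P ⟨Q, hQ, rfl⟩
      exact ⟨X + Q, xV1_B0 hQ, by ring⟩
  · -- `B1`: apex `1 + X`; children `1 + X - X * V0` and `X + V0`
    have e1 : p + x * (1 + X) + -(x * X) = p + x := by ring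
    have e2 : p + x * X + x = p + x * (1 + X) := by ring
    have l1 := (h1 (p + x * (1 + X)) (-(x * X)) hx.mulX.neg).1.symm
    have l2 := (h2 (p + x * (1 + X)) (-(x * X)) hx.mulX.neg).1.symm
    rw [e1] at l1 l2
    have r1 := (h1 (p + x * X) x hx).1
    have r2 := (h2 (p + x * X) x hx).1
    rw [e2] at r1 r2
    refine step him hmj hE l1 l2 r1 r2 ?_ ?_ ?_ a3
    · rintro P ⟨Q, hQ, rfl⟩ ⟨Q', hQ', h⟩
      have h' : p + x * (1 + X - X * Q) = p + x * (X + Q') := by linear_combination h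
      have := inter_B1 hQ hQ' (cancel hx h')
      rw [show p + x * (1 + X) + -(x * X) * Q = p + x * (1 + X - X * Q) by ring, this]
    · rintro P ⟨Q, hQ, rfl⟩
      exact ⟨1 + X - X * Q, oxV0_B1 hQ, by ring⟩
    · rintro P ⟨Q, hQ, rfl⟩
      exact ⟨X + Q, xpV0_B1 hQ, by ring⟩

theorem all {E : ℕ → ℕ → Prop} (hE : NonCross E) : ∀ d i j, i < j → j ≤ i + d → All E i j := by
  intro d
  induction d with
  | zero => intro i j h1 h2; omega
  | succ d ih =>
    intro i j h1 h2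
    rcases Nat.lt_or_ge (i + 1) j with h | h
    · obtain ⟨m, him, hmj, hm⟩ := exists_mid hE (show i + 2 ≤ j by omega)
      exact all_step him hmj hm (ih i m him (by omega)) (ih m j hmj (by omega))
    · have : j = i + 1 := by omega
      subst this
      exact all_base E i

/-- The vertices `0, …, N` of a non-crossing graph can be mapped injectively to `ℤ[X]` with
allowed differences along the edges. -/
theorem exists_poly_drawing {E : ℕ → ℕ → Prop} (hE : NonCross E) (N : ℕ) :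
    ∃ f : ℕ → ℤ[X], (∀ u v, u ≤ N → v ≤ N → f u = f v → u = v) ∧
      ∀ u v, u < v → v ≤ N → E u v → Al (f v - f u) := by
  obtain ⟨f, -, -, -, h4, h5⟩ := (all hE (N + 1) 0 (N + 1) (by omega) (by omega) 0 1
    ⟨0, Or.inl (by ring)⟩).1.1
  exact ⟨f, fun u v hu hv h => h4 u v (Nat.zero_le _) (by omega) (Nat.zero_le _) (by omega) h,
    fun u v huv hv h => h5 u v (Nat.zero_le _) huv (by omega) h⟩

end Pool.Agent.X64.Ddn
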