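import Mathlib

/-!
# Two edge lengths for outerplanar graphs: the construction in `ℤ[X]`

The vertices are mapped to `ℤ[X]` such that the difference of two adjacent vertices is
`± X ^ k` or `± X ^ k (X - 1)`.
-/

namespace Pool.Agent.X64.Ddn

open Polynomial

/-- `Q = 0` or the lowest nonzero coefficient of `Q` is positive. -/
def Pos (Q : ℤ[X]) : Prop := Q = 0 ∨ 0 < Q.trailingCoeff

theorem pos_zero : Pos 0 := Or.inl rfl

theorem trailingCoeff_of_coeff_zero {Q : ℤ[X]} (h : Q.coeff 0 ≠ 0) :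
    Q.trailingCoeff = Q.coeff 0 := by
  have h1 : Q.natTrailingDegree = 0 := Nat.le_zero.1 (natTrailingDegree_le_of_ne_zero h)
  rw [trailingCoeff, h1]

theorem pos_of_coeff {Q : ℤ[X]} (h : 0 < Q.coeff 0) : Pos Q := by
  right
  rw [trailingCoeff_of_coeff_zero h.ne']
  exact h

theorem Pos.coeff_nonneg {Q : ℤ[X]} (h : Pos Q) : 0 ≤ Q.coeff 0 := by
  rcases h with rfl | h
  · simp
  by_contra hlt
  push Not at hlt
  rw [trailingCoeff_of_coeff_zero hlt.ne] at h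
  omega

theorem pos_X_mul {Q : ℤ[X]} : Pos (X * Q) ↔ Pos Q := by
  unfold Pos
  have h1 : X * Q = 0 ↔ Q = 0 := by
    rw [mul_eq_zero]
    simp [X_ne_zero]
  have h2 : (X * Q).trailingCoeff = Q.trailingCoeff := by
    have h3 : (X : ℤ[X]).trailingCoeff = 1 := by
      rw [trailingCoeff, natTrailingDegree_X, coeff_X_one]
    rw [trailingCoeff_mul, h3, one_mul]
  rw [h1, h2]

theorem Pos.eq_zero {Q : ℤ[X]} (h : Pos Q) (h' : Pos (-Q)) : Q = 0 := by
  rcases h with h | h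
  · exact h
  rcases h' with h' | h'
  · rwa [neg_eq_zero] at h'
  · exfalso
    have : (-Q).trailingCoeff = -Q.trailingCoeff := by
      rw [trailingCoeff, trailingCoeff, natTrailingDegree_neg, coeff_neg]
    rw [this] at h'
    omega

/-! ### The regions -/

/-- `0` or `1` -/
def Dig (c : ℤ[X]) : Prop := c = 0 ∨ c = 1

def V0 (P : ℤ[X]) : Prop := ∃ c Q, Dig c ∧ Pos Q ∧ P = c + X * Q

def V1 (P : ℤ[X]) : Prop := (∃ c d Q, Dig c ∧ Dig d ∧ Pos Q ∧ P = c + X * (d - X * Q)) ∨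
  ∃ c Q, Dig c ∧ Pos Q ∧ P = c + X * (1 + Q)

def B0 (P : ℤ[X]) : Prop := (∃ d Q, Dig d ∧ Pos Q ∧ P = 1 + X * (d + X * Q)) ∨ V1 (P - X)

def B1 (P : ℤ[X]) : Prop := (∃ d Q, Dig d ∧ Pos Q ∧ P = 1 + X * (d - X * Q)) ∨
  ∃ c Q, Dig c ∧ Pos Q ∧ P = c + X * (1 + Q)

theorem Dig.compl {c : ℤ[X]} (h : Dig c) : Dig (1 - c) := by
  rcases h with rfl | rfl
  · right; ring
  · left; ring

theorem Dig.pos {c Q : ℤ[X]} (h : Dig c) (hQ : Pos Q) : Pos (c + X * Q) := by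
  rcases h with rfl | rfl
  · rw [zero_add]; exact pos_X_mul.2 hQ
  · apply pos_of_coeff; simp

theorem pos_one_add_dig {d Q : ℤ[X]} (h : Dig d) : Pos (1 + d - X * Q) := by
  apply pos_of_coeff
  rcases h with rfl | rfl <;> simp

theorem pos_nat_add {Q : ℤ[X]} (hQ : Pos Q) : Pos (2 + Q) := by
  apply pos_of_coeff
  have := hQ.coeff_nonneg
  have h2 : (2 : ℤ[X]).coeff 0 = 2 := by
    rw [show (2 : ℤ[X]) = C 2 from rfl, coeff_C_zero]
  rw [coeff_add, h2]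
  omega

-- inclusions
theorem xV0_V0 {P : ℤ[X]} (h : V0 P) : V0 (X * P) := by
  obtain ⟨c, Q, hc, hQ, rfl⟩ := h
  exact ⟨0, c + X * Q, Or.inl rfl, hc.pos hQ, by ring⟩

theorem B0_V0 {P : ℤ[X]} (h : B0 P) : V0 P := by
  rcases h with ⟨d, Q, hd, hQ, rfl⟩ | h
  · exact ⟨1, _, Or.inr rfl, hd.pos hQ, rfl⟩
  rcases h with ⟨c, d, Q, hc, hd, hQ, h⟩ | ⟨c, Q, hc, hQ, h⟩
  · exact ⟨c, 1 + d - X * Q, hc, pos_one_add_dig hd, by linear_combination h⟩
  · exact ⟨c, 2 + Q, hc, pos_nat_add hQ, by linear_combination h⟩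

theorem oxV0_B0 {P : ℤ[X]} (h : V0 P) : B0 (1 + X * P) := by
  obtain ⟨c, Q, hc, hQ, rfl⟩ := h
  exact Or.inl ⟨c, Q, hc, hQ, rfl⟩

theorem xV1_B0 {P : ℤ[X]} (h : V1 P) : B0 (X + P) := Or.inr (by rwa [add_sub_cancel_left])

theorem xV0_V1 {P : ℤ[X]} (h : V0 P) : V1 (X - X * P) := by
  obtain ⟨c, Q, hc, hQ, rfl⟩ := h
  exact Or.inl ⟨0, 1 - c, Q, Or.inl rfl, hc.compl, hQ, by ring⟩

theorem B1_V1 {P : ℤ[X]} (h : B1 P) : V1 P := by
  rcases h with ⟨d, Q, hd, hQ, rfl⟩ | h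
  · exact Or.inl ⟨1, d, Q, Or.inr rfl, hd, hQ, rfl⟩
  · exact Or.inr h

theorem oxV0_B1 {P : ℤ[X]} (h : V0 P) : B1 (1 + X - X * P) := by
  obtain ⟨c, Q, hc, hQ, rfl⟩ := h
  exact Or.inl ⟨1 - c, Q, hc.compl, hQ, by ring⟩

theorem xpV0_B1 {P : ℤ[X]} (h : V0 P) : B1 (X + P) := by
  obtain ⟨c, Q, hc, hQ, rfl⟩ := h
  exact Or.inr ⟨c, Q, hc, hQ, by ring⟩

-- comparison of polynomials
theorem split_eq {c c' P P' : ℤ[X]} (hc : Dig c) (hc' : Dig c') (h : c + X * P = c' + X * P') :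
    c = c' ∧ P = P' := by
  have h0 := congrArg (fun R : ℤ[X] => R.coeff 0) h
  simp only [coeff_add, mul_coeff_zero, coeff_X_zero, zero_mul, add_zero] at h0
  have hcc : c = c' := by
    rcases hc with rfl | rfl <;> rcases hc' with rfl | rfl <;> simp at h0 ⊢
  refine ⟨hcc, ?_⟩
  rw [hcc] at h
  exact mul_left_cancel₀ X_ne_zero (add_left_cancel h)

theorem key1 {c d Q Q' : ℤ[X]} (hc : Dig c) (hd : Dig d) (hQ : Pos Q) (hQ' : Pos Q')
    (h : c + X * Q = 1 + d - X * Q') : c = 1 ∧ Q = 0 := by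
  have h0 := congrArg (fun R : ℤ[X] => R.coeff 0) h
  simp only [coeff_add, coeff_sub, mul_coeff_zero, coeff_X_zero, zero_mul, add_zero, sub_zero] at h0
  have h1 : (1 : ℤ[X]).coeff 0 = 1 := coeff_one_zero
  rcases hc with rfl | rfl <;> rcases hd with rfl | rfl <;>
    simp only [coeff_zero, h1] at h0
  · norm_num at h0
  · norm_num at h0
  · refine ⟨rfl, ?_⟩
    have h2 : Q = -Q' := by
      apply mul_left_cancel₀ (X_ne_zero (R := ℤ))
      linear_combination h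
    rw [h2] at hQ
    rw [h2, hQ'.eq_zero hQ, neg_zero]
  · norm_num at h0

theorem key2 {c Q Q' : ℤ[X]} (hc : Dig c) (hQ' : Pos Q') (h : c + X * Q = 2 + Q') : False := by
  have h0 := congrArg (fun R : ℤ[X] => R.coeff 0) h
  have h2 : (2 : ℤ[X]).coeff 0 = 2 := by
    rw [show (2 : ℤ[X]) = C 2 from rfl, coeff_C_zero]
  simp only [coeff_add, mul_coeff_zero, coeff_X_zero, zero_mul, add_zero, h2] at h0
  have := hQ'.coeff_nonneg
  rcases hc with rfl | rfl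
  · rw [coeff_zero] at h0; omega
  · rw [coeff_one_zero] at h0; omega

theorem key3 {d Q Q' : ℤ[X]} (hd : Dig d) (hQ : Pos Q) (hQ' : Pos Q')
    (h : d - X * Q = 1 + Q') : d = 1 ∧ Q = 0 := by
  have h0 := congrArg (fun R : ℤ[X] => R.coeff 0) h
  simp only [coeff_add, coeff_sub, mul_coeff_zero, coeff_X_zero, zero_mul, sub_zero,
    coeff_one_zero] at h0
  have h1 := hQ'.coeff_nonneg
  rcases hd with rfl | rfl
  · rw [coeff_zero] at h0; omega
  · refine ⟨rfl, ?_⟩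
    have h2 : Q' = -(X * Q) := by linear_combination -h
    rw [h2] at hQ'
    have h3 := (pos_X_mul.2 hQ).eq_zero hQ'
    rwa [mul_eq_zero, or_iff_right X_ne_zero] at h3

-- intersections
theorem inter_V0 {P : ℤ[X]} (h : V0 P) (h' : B0 (X * P)) : X * P = X := by
  obtain ⟨c, Q, hc, hQ, rfl⟩ := h
  rcases h' with ⟨d, Q', hd, hQ', h'⟩ | h'
  · have := (split_eq (c := 0) (c' := 1) (Or.inl rfl) (Or.inr rfl)
      (show (0 : ℤ[X]) + X * (c + X * Q) = 1 + X * (d + X * Q') by rw [zero_add]; exact h')).1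
    simp at this
  rcases h' with ⟨c', d, Q', hc', hd, hQ', h'⟩ | ⟨c', Q', hc', hQ', h'⟩
  · have h2 := (split_eq (c := 0) (c' := c') (Or.inl rfl) hc'
      (show (0 : ℤ[X]) + X * (c + X * Q) = c' + X * (1 + d - X * Q') by linear_combination h')).2
    obtain ⟨rfl, rfl⟩ := key1 hc hd hQ hQ' h2
    ring
  · have h2 := (split_eq (c := 0) (c' := c') (Or.inl rfl) hc'
      (show (0 : ℤ[X]) + X * (c + X * Q) = c' + X * (2 + Q') by linear_combination h')).2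
    exact (key2 hc hQ' h2).elim

theorem inter_B0 {P R : ℤ[X]} (h : V0 P) (h' : V1 R) (e : 1 + X * P = X + R) :
    1 + X * P = 1 + X := by
  obtain ⟨c, Q, hc, hQ, rfl⟩ := h
  rcases h' with ⟨c', d, Q', hc', hd, hQ', h'⟩ | ⟨c', Q', hc', hQ', h'⟩
  · have h2 := (split_eq (c := 1) (c' := c') (Or.inr rfl) hc'
      (show (1 : ℤ[X]) + X * (c + X * Q) = c' + X * (1 + d - X * Q') by
        linear_combination h' + e)).2
    obtain ⟨rfl, rfl⟩ := key1 hc hd hQ hQ' h2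
    ring
  · have h2 := (split_eq (c := 1) (c' := c') (Or.inr rfl) hc'
      (show (1 : ℤ[X]) + X * (c + X * Q) = c' + X * (2 + Q') by linear_combination h' + e)).2
    exact (key2 hc hQ' h2).elim

theorem inter_V1 {P : ℤ[X]} (h : V0 P) (h' : B1 (X - X * P)) : X - X * P = X := by
  obtain ⟨c, Q, hc, hQ, rfl⟩ := h
  rcases h' with ⟨d, Q', hd, hQ', h'⟩ | ⟨c', Q', hc', hQ', h'⟩
  · have := (split_eq (c := 0) (c' := 1) (Or.inl rfl) (Or.inr rfl)
      (show (0 : ℤ[X]) + X * (1 - c - X * Q) = 1 + X * (d - X * Q') by linear_combination h')).1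
    simp at this
  · have h2 := (split_eq (c := 0) (c' := c') (Or.inl rfl) hc'
      (show (0 : ℤ[X]) + X * (1 - c - X * Q) = c' + X * (1 + Q') by linear_combination h')).2
    obtain ⟨h3, rfl⟩ := key3 hc.compl hQ hQ' h2
    have : c = 0 := by linear_combination -h3
    rw [this]; ring

theorem inter_B1 {P R : ℤ[X]} (h : V0 P) (h' : V0 R) (e : 1 + X - X * P = X + R) :
    1 + X - X * P = 1 + X := by
  obtain ⟨c, Q, hc, hQ, rfl⟩ := h
  obtain ⟨c', Q', hc', hQ', rfl⟩ := h'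
  have h2 := (split_eq (c := 1) (c' := c') (Or.inr rfl) hc'
      (show (1 : ℤ[X]) + X * (1 - c - X * Q) = c' + X * (1 + Q') by linear_combination e)).2
  obtain ⟨h3, rfl⟩ := key3 hc.compl hQ hQ' h2
  have : c = 0 := by linear_combination -h3
  rw [this]; ring

end Pool.Agent.X64.Ddn
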